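import Mathlib
import Pool.Agent.Q64.L.Unif
import Pool.Agent.Q64.L.ClThms

/-!
# Numerical and homological equivalence in characteristic zero for the products of arbitrary
varieties with the abelian varieties with complex multiplication of almost all types of all CM
fields

Let `K i` (`i` in a finite set) be CM fields of degree `2 g i`. Nothing is assumed about their
Galois groups. They are pairwise independent: for `i ≠ k` and all complex embeddings `φ` of `K i`
and `ψ` of `K k` some automorphism of `ℂ` is the identity on `φ (K i)` and the complex conjugation
on `ψ (K k)` (this is no condition if there is only one field).

There are `2 ^ (∑ i, g i)` families of CM types `Φ i` of the fields `K i` (a CM type is a choice of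
one element out of each complex conjugate pair of embeddings). A family is exceptional
(`exceptionalFamilies K`) if the following statement (`Holds`) is false for it. Let `A` be an
abelian variety over a finitely generated field `k` of characteristic zero, for instance a number
field, which is isogenous to a product of powers of abelian varieties with complex multiplication
by the fields `K i`, defined over `k`, and with the CM types `Φ i`. Let `Z` be **any** smooth
projective variety over `k`. Let `v` be **one** place of `k` where `A` and `Z` have good reduction,
with `Q` elements in the residue field, such that the prime number below `v` splits completely in
the fields `K i`. The Frobenius endomorphism of the reduction of `A` is the reduction of an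
endomorphism of `A`, given by numbers `π i` in the fields `K i`; by Shimura and Taniyama these are
ordinary Weil numbers, with the slopes prescribed by `Φ i` (`HasType`; this is what is used of `v`
and `A`, and that the `π i` generate the `K i`, which is clear if the types are primitive). Suppose
that the eigenvalues `ρ` of the Frobenius element of `v` on the `ℓ`-adic cohomology of `Z` and
their conjugates are unrelated to the fields `K i` (`UnrelatedTo`): a function `n` on the complex
embeddings of `K i` with `n (conj φ) = - n φ` which is invariant under all automorphisms of `ℂ`
that fix a power of `ρ` is zero. This is so if for each embedding `ψ` of `K i` some automorphism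
which fixes a power of `ρ` is the complex conjugation on `ψ (K i)`: for instance, if a power of `ρ`
lies in a field linearly disjoint from the normal closures of the `K i`, or in a totally real
field. It is also so if the degree of `ρ` is less than twice the dimension of each nonzero space of
functions `n` stable under all automorphisms of `ℂ`.

**For every `j` numerical and homological equivalence coincide on the cycles of codimension `j` on
`A × Z` if and only if they coincide on the cycles of codimension `j - k` on `Z` for all
`0 ≤ k ≤ dim A`.** So the conjecture `D(A × Z)` is equivalent to the conjecture `D(Z)`, in each
range of codimensions. Nothing else is assumed on `Z`. For instance `D(A × Z)` is true, in all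
codimensions, for all these `A` and all `Z` of dimension at most four, by the theorem of Lieberman
on `Z`; the Lefschetz standard conjecture, which would imply `D(A × Z)` in characteristic zero, is
not known for these `Z` if their dimension is three or four.

The exceptional families are the same for all prime numbers `p`, all places, all finitely generated
fields `k` and all `Z` (`ForAllPlaces`). Since all varieties and cycles over an algebraically
closed field are defined over a finitely generated field (and the Frobenius elements of finite
extensions are powers of the given one), this is a statement on the varieties `A × Z` over all
algebraically closed fields of characteristic zero.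

What is used of `A` are known theorems (`IsAbelian`): `H(A)` is generated by `H^1`, Frobenius is
diagonalizable on `H^1`, the classes in `H^2(1)` invariant under Frobenius are combinations of
classes of divisors (for types that are not degenerate these are the Hodge classes, so this is the
theorem of Lefschetz), and the nilpotence of homologically trivial correspondences (Kimura). Here
`A.CH` is the ring generated by the symmetric divisors, and `A.frob` is the endomorphism of `A`
given by the `π i`. The `ℓ`-adic cohomology `R` of `Z` and `A × Z` over an algebraic closure of `k`
is modelled by `RelData`, with the formal properties in `IsRel`: degrees, products with classes on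
`A`, push-forward to `Z`, the projection formula, the operation of the correspondences of `A`;
`frobN` and `frobM` are the operations of the Frobenius element of the place on `H(Z)`, and `InvN`,
`InvM` are the elements on which the Frobenius element acts through the Tate twist. The cycles
modulo homological equivalence are the theory `T` with an injective cycle map to `R` (`IsCycles`),
and with the intersection products, for which the projection formula holds (`IsCupProduct`).

The theorem bounds the number of the exceptional families: it is at most
`2 ^ (∑ i, g i) * ∑ i, C * (1 + log (2 g i)) ^ 16 * min (N ^ 2 * D ^ (1 / 4) / √g, √g / q)` with an
absolute constant `C`. Here, for `K = K i` and `g = g i`, `N` is the number of the CM subfields of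
`K` (with `K`), `D = D i ≥ 1` is a bound for the degrees of the CM subfields of `K` that are normal
over `ℚ` with a nonabelian Galois group, and `q = q i` is any prime factor of `g` (or `q = 1`). So
the exceptional types are a proportion `O (g ^ (-1 / 4) * (log g) ^ 16)` of all types of all CM
fields with a bounded number of CM subfields, `O (g ^ (-1 / 2) * (log g) ^ 16)` if the normal
nonabelian ones have bounded degrees, and `O (g ^ (-δ) * (log g) ^ 16)` for all CM fields, with any
number of subfields, whose degree is divisible by a prime number `q ≥ g ^ (1 / 2 + δ)`. Some
assumption is necessary: almost all types of a multiquadratic CM field are degenerate. The counting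
part (the bound for the number of the degenerate types) is the one of `AllCMFields` (MP_e12fcd_ag),
by helper1 and others of this team.

The proof. Suppose that the product of `ρ` and of some eigenvalues `φ (π i)` of `A`, no two of them
complex conjugate, is a power of `q`, up to a root of unity. For an automorphism `σ` of `ℂ` the
`p`-adic valuations of the images under `σ` give a linear relation between the signed weights `± 1`
whose right side is a function of the valuation of `σ ρ`. It does not change if `σ` is multiplied
by an automorphism `τ` which fixes a power of `ρ`. The difference of the two relations is
homogeneous; if the types are not degenerate it is trivial, so that the differences of the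
exponents of complex conjugate embeddings are invariant under `τ`. So they are zero, as `ρ` is
unrelated to the fields `K i`. It follows that, on the part of the cohomology of `A × Z` on which
the Frobenius element acts through the Tate twist, the correspondence on `A` given by the sum of
the products of dual classes of products of divisors acts as the identity: the endomorphism
`A.frob` satisfies there the polynomial reciprocal to that of the Frobenius element on `H(Z)`, this
polynomial is prime to the one whose value on `H(A)` lies in the part generated by divisors, and
the difference of the two correspondences is nilpotent. So the cycles on `A × Z` modulo homological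
equivalence are the direct sum of the products of finitely many products of divisors on `A` with
the cycles on `Z`, and the intersection products correspond.
-/

set_option autoImplicit false

namespace Pool.Agent.Results.MP_f569db_ag.AllCMTypesCharacteristicZero

open NumberField Module Pool.Agent.H204R3.CM Pool.Agent.H977R3.CM Pool.Agent.TH170
  Pool.Agent.Y1.KN Pool.Agent.Y1.CT Pool.Agent.Q64.L

/-- The statement `NumHomReducesZero` holds for all abelian varieties with one Frobenius element
given by ordinary Weil numbers in the fields `K i`, with the slopes prescribed by the CM types
`Φ i`, at any place, and all varieties `Z` unrelated to the fields `K i`. -/
def Holds {I : Type} (K : I → Type) [∀ i, Field (K i)] [∀ i, NumberField (K i)]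
    [∀ i, IsCMField (K i)] (Φ : ∀ i, Set (K i →+* ℂ)) : Prop :=
  ForAllPlaces K (fun q f => NumHomReducesZero (UnrelatedRoots K) q f) Φ

/-- The exceptional families of CM types. -/
def exceptionalFamilies {I : Type} (K : I → Type) [∀ i, Field (K i)] [∀ i, NumberField (K i)]
    [∀ i, IsCMField (K i)] : Set (∀ i, Set (K i →+* ℂ)) :=
  {Φ | (∀ i, IsCMType (Φ i)) ∧ ¬ Holds K Φ}

/-- **The conjecture `D` holds for `A × Z` if and only if it holds for `Z`, for the abelian
varieties `A` in characteristic zero with complex multiplication of almost all types of all CM
fields and all varieties `Z` with one Frobenius element unrelated to the CM fields.** -/
theorem result :
    ∃ C : ℝ, 0 ≤ C ∧ ∀ (I : Type) [Fintype I]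
      (K : I → Type) [∀ i, Field (K i)] [∀ i, NumberField (K i)] [∀ i, IsCMField (K i)]
      (g q : I → ℕ) (D : I → ℝ), PairwiseIndep K → (∀ i, finrank ℚ (K i) = 2 * g i) →
      (∀ i, q i ∣ g i ∧ (q i = 1 ∨ (q i).Prime)) → (∀ i, 1 ≤ D i) →
      (∀ (i : I) (L : IntermediateField ℚ (K i)), IsCMField L → IsGalois ℚ L →
        ¬ IsAbelianGalois ℚ L → (finrank ℚ L : ℝ) ≤ D i) →
      ((exceptionalFamilies K).ncard : ℝ) ≤
        2 ^ (∑ i, g i) * ∑ i, C * ((1 + Real.log (2 * g i)) ^ 16 *
          min ((numCMSubfields (K i) : ℝ) ^ 2 * D i ^ (1 / 4 : ℝ) / √(g i)) (√(g i) / q i)) := by
  obtain ⟨C, hC0, hC⟩ := countU
  refine ⟨C, hC0, ?_⟩
  intro I _ K _ _ _ g q D hind hg hq hD hDF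
  exact hC I K g q D hind hg hq hD hDF _ fun Q f hQ hG => numHomReduces hQ hG

end Pool.Agent.Results.MP_f569db_ag.AllCMTypesCharacteristicZero
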