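import Pool.Agent.Q82.DL.Self

/-!
# The conjecture D for the cycles of one dimension on the square of a variety

Let `W` be a Weil cohomology theory, `X` a variety of dimension `n` and `D` a divisor on `X` with hard
Lefschetz, `d < n`. Suppose that numerically trivial cycles of the one dimension `d` on `X × X`
(codimension `2n - d`) are homologically trivial. Then

* the conjecture D holds for the cycles of dimension at most `d` and for the cycles of codimension at
  most `d` on `X × X`;
* the conjecture D holds for the cycles of dimension at most `d` and for the cycles of codimension at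
  most `d` on `X`; in particular it holds for all cycles on `X` if `n ≤ 2 d + 1`;
* the Kunneth projectors of `X` in the degrees at most `d` and at least `2n - d` are algebraic.
-/

set_option autoImplicit false

open CategoryTheory AlgebraicGeometry

universe u v

namespace Pool.Agent.Results.MP_f569db_ag.OneDimensionOnSquares

open Pool.Agent.H914 VarClass Obj Pool.Agent.H447

/-- **The conjecture D for the cycles of one dimension on the square.** -/
theorem result {k : Type u} [Field k] {𝒱 : VarClass k} {ops : CycleOps 𝒱}
    (W : WeilCohomology.{u, v} ops) (X : 𝒱.Obj) (D : X.Cycles) (hD : X.IsCyc 1 D)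
    (hHL : HardLefschetz W X D) (d : ℕ) (hd : d < X.dim)
    (h : HomEqNumIn W (X.prod X) (2 * X.dim - d)) :
    (∀ q ≤ 2 * X.dim, q ≤ d ∨ 2 * X.dim - d ≤ q → HomEqNumIn W (X.prod X) q) ∧
    (∀ q ≤ X.dim, q ≤ d ∨ X.dim - d ≤ q → HomEqNumIn W X q) ∧
    (X.dim ≤ 2 * d + 1 → ∀ q ≤ X.dim, HomEqNumIn W X q) ∧
    (∀ i, i ≤ d ∨ 2 * X.dim - d ≤ i →
      ∃ P, (X.prod X).IsCyc X.dim P ∧ InducesProjector W X i P) :=
  ⟨fun q hq hq' => Pool.Agent.Q82.DL.homEqNumIn_range hD hHL hd h hq hq',
    fun q hq hq' => Pool.Agent.Q82.DL.self_range hD hHL hd h hq hq',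
    fun hn q hq => Pool.Agent.Q82.DL.self_range hD hHL hd h hq (by omega),
    fun i hi => Pool.Agent.Q82.DL.projectors_of_homEqNumIn hD hHL hd h hi⟩

end Pool.Agent.Results.MP_f569db_ag.OneDimensionOnSquares
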