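import Pool.Agent.Q67.Mid.DLaw

/-!
# MP_f569db_ag: the zero-infinity law for numerical equivalence
-/

set_option autoImplicit false

open CategoryTheory AlgebraicGeometry Filter Topology

universe u v

namespace Pool.Agent.Results.MP_f569db_ag.ZeroInfinityLaw

open Pool.Agent.H914 VarClass Obj WeilCohomology Pool.Agent.Y133.Half Pool.Agent.Q67.Mid

/-- Let `W` be a Weil cohomology theory. For every variety `X` either conjecture D holds for all
powers of `X`, and then conjecture B holds for `X` and every divisor with hard Lefschetz, or the
rank of the group of cycles on `X^n` modulo numerical equivalence divided by the dimension of the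
space spanned by their cohomology classes tends to `0`. So D for all powers and B for `X` follow as
soon as for one `ε > 0` and infinitely many `n` the proportion `ε` of the classes of cycles on
`X^n` is seen by the intersection numbers. -/
theorem result {k : Type u} [Field k] {𝒱 : VarClass k} {ops : CycleOps 𝒱}
    (W : WeilCohomology.{u, v} ops) (X : 𝒱.Obj) :
    ((DForPowers W X ∧ BForX W X) ∨
      Tendsto (fun n => (cycRank ops (pw X n) : ℝ) / algDim W (pw X n)) atTop (𝓝 0)) ∧
    ∀ ε : ℝ, 0 < ε →
      (∃ᶠ n in atTop, ε * algDim W (pw X n) ≤ cycRank ops (pw X n) ∧ 0 < algDim W (pw X n)) →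
      DForPowers W X ∧ BForX W X :=
  ⟨zero_infinity W X, fun _ hε h => of_frequently W X hε h⟩

end Pool.Agent.Results.MP_f569db_ag.ZeroInfinityLaw
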